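import Pool.Agent.UMG.StmtsB

/-!
Squad UMG (MP_34c13a_lc), row PCS: one step of the exploration of the cycle of a point.
-/

set_option autoImplicit false

namespace Pool.Agent.UMG.B.H27

open Finset Pool.Agent.UMG Pool.Agent.UMG.B

theorem pinv_up {k : ℕ} {Λ : PF k} (hΛ : PInv k Λ) : PInv k (up Λ) := by
  intro A A' e τ π σ π' σ' h1 h2
  refine hΛ (Option A) (Option A') (Equiv.optionCongr e) (fun x => x.elim (τ none) τ) (ins π)
    (fun x => x.elim 1 σ) (ins π') (fun x => x.elim 1 σ') ?_ ?_
  · rintro (_ | y)
    · rfl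
    · have h3 := h1 y
      show Equiv.optionCongr (Equiv.optionCongr e) ((π y).elim none (fun a => some (some a))) =
        (π' (Equiv.optionCongr e y)).elim none (fun a => some (some a))
      rw [← h3]
      rcases π y with _ | a
      · rfl
      · rfl
  · rintro (_ | y)
    · show τ none * 1 = 1 * τ none
      rw [mul_one, one_mul]
    · have h3 := h2 y
      show ((π y).elim (none : Option (Option A)) (fun a => some (some a))).elim (τ none) τ * σ y =
        σ' (Equiv.optionCongr e y) * τ y
      rw [← h3]
      rcases π y with _ | a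
      · rfl
      · rfl

theorem sum_perm (m : ℕ) (F : Equiv.Perm (Option (Fin m)) → ℕ) :
    ∑ π, F π = ∑ π' : Equiv.Perm (Fin m), F (Equiv.optionCongr π') +
      ∑ a : Fin m, ∑ π' : Equiv.Perm (Fin m),
        F (Equiv.swap none (some a) * Equiv.optionCongr π') := by
  rw [← Equiv.sum_comp Equiv.Perm.decomposeOption.symm F, Fintype.sum_prod_type,
    Fintype.sum_option]
  congr 1
  apply Finset.sum_congr rfl
  intro π' _
  rw [Equiv.Perm.decomposeOption_symm_apply]
  show F (Equiv.swap none none * Equiv.optionCongr π') = _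
  rw [Equiv.swap_self]
  exact congrArg F (one_mul _)

theorem sum_fun {k : ℕ} {A : Type} [Fintype A] [DecidableEq A]
    (G : (Option A → Equiv.Perm (Fin k)) → ℕ) :
    ∑ σ, G σ = ∑ ρ : Equiv.Perm (Fin k), ∑ σ' : A → Equiv.Perm (Fin k),
      G (fun x => x.elim ρ σ') := by
  rw [← Fintype.sum_prod_type']
  symm
  refine Fintype.sum_bijective (fun x : Equiv.Perm (Fin k) × (A → Equiv.Perm (Fin k)) =>
    (fun y : Option A => y.elim x.1 x.2)) ⟨?_, ?_⟩ _ _ (fun _ => rfl)
  · rintro ⟨ρ, s⟩ ⟨ρ', s'⟩ h
    have h1 := congrFun h none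
    have h2 : s = s' := funext fun a => congrFun h (some a)
    have h3 : ρ = ρ' := h1
    rw [h2, h3]
  · intro σ
    refine ⟨(σ none, fun a => σ (some a)), ?_⟩
    funext x
    rcases x with _ | a
    · rfl
    · rfl

/-- the labels with the label `1` at `none` -/
def lab {P B : Type} [Group P] : (Option (Option B) → P) ≃ P × (Option B → P) where
  toFun s := (s none, fun x => x.elim (s (some none) * s none) (fun b => s (some (some b))))
  invFun x := fun y => y.elim x.1 (fun z => z.elim (x.2 none * x.1⁻¹) (fun b => x.2 (some b)))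
  left_inv s := by
    funext y
    rcases y with _ | _ | b
    · rfl
    · show (s (some none) * s none) * (s none)⁻¹ = s (some none)
      group
    · rfl
  right_inv x := by
    rcases x with ⟨g, s⟩
    refine Prod.ext rfl ?_
    funext y
    rcases y with _ | b
    · show (s none * g⁻¹) * g = s none
      group
    · rfl

theorem step {k : ℕ} {Λ : PF k} (hΛ : PInv k Λ) {B : Type} (π : Equiv.Perm (Option B))
    (s : Option (Option B) → Equiv.Perm (Fin k)) :
    Λ (Option B) (ins π) s = up Λ B π (lab s).2 := by
  refine hΛ (Option B) (Option B) (Equiv.refl _)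
    (fun x => x.elim 1 (fun y => y.elim (s none)⁻¹ (fun _ => 1))) (ins π) s (ins π) _ ?_ ?_
  · intro x
    simp
  · have key : ∀ y : Option B, ((ins π (some y)).elim (1 : Equiv.Perm (Fin k))
        (fun y => y.elim (s none)⁻¹ (fun _ => 1))) = 1 := by
      intro y
      show (((π y).elim (none : Option (Option B)) (fun a => some (some a))).elim
        (1 : Equiv.Perm (Fin k)) (fun y => y.elim (s none)⁻¹ (fun _ => 1))) = 1
      rcases π y with _ | a
      · rfl
      · rfl
    rintro (_ | _ | b)
    · show (s none)⁻¹ * s none = 1 * 1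
      group
    · rw [key none]
      show 1 * s (some none) = (s (some none) * s none) * (s none)⁻¹
      group
    · rw [key (some b)]
      show 1 * s (some (some b)) = s (some (some b)) * 1
      group

theorem sum_step {k : ℕ} {Λ : PF k} (hΛ : PInv k Λ) {m : ℕ}
    (π : Equiv.Perm (Option (Fin m))) :
    ∑ s : Option (Option (Fin m)) → Equiv.Perm (Fin k), Λ (Option (Fin m)) (ins π) s =
      k.factorial * ∑ σ : Option (Fin m) → Equiv.Perm (Fin k), up Λ (Fin m) π σ := by
  have h1 : ∑ s : Option (Option (Fin m)) → Equiv.Perm (Fin k), Λ (Option (Fin m)) (ins π) s =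
      ∑ x : Equiv.Perm (Fin k) × (Option (Fin m) → Equiv.Perm (Fin k)),
        up Λ (Fin m) π x.2 :=
    Fintype.sum_equiv lab _ _ (fun s => step hΛ π s)
  rw [h1, Fintype.sum_prod_type]
  simp only
  rw [Finset.sum_const, Finset.card_univ, Fintype.card_perm, Fintype.card_fin, smul_eq_mul]

theorem conj_eq {m : ℕ} (a : Fin (m + 1)) (π' : Equiv.Perm (Fin (m + 1)))
    (x : Option (Fin (m + 1))) :
    Equiv.optionCongr (finSuccEquiv' a)
        ((Equiv.swap none (some a) * Equiv.optionCongr π') x) =
      ins ((finSuccEquiv' a).permCongr π') (Equiv.optionCongr (finSuccEquiv' a) x) := by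
  rcases x with _ | b
  · show Equiv.optionCongr (finSuccEquiv' a) (Equiv.swap none (some a) none) = some none
    rw [Equiv.swap_apply_left]
    show some (finSuccEquiv' a a) = some none
    rw [finSuccEquiv'_at]
  · have hr : ins ((finSuccEquiv' a).permCongr π') (Equiv.optionCongr (finSuccEquiv' a) (some b))
        = ((finSuccEquiv' a) (π' b)).elim none (fun c => some (some c)) := by
      show (((finSuccEquiv' a).permCongr π') (finSuccEquiv' a b)).elim none
        (fun c => some (some c)) = _
      rw [Equiv.permCongr_apply, Equiv.symm_apply_apply]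
    rw [hr]
    show Equiv.optionCongr (finSuccEquiv' a) (Equiv.swap none (some a) (some (π' b))) = _
    by_cases h : π' b = a
    · rw [h, Equiv.swap_apply_right, finSuccEquiv'_at]
      rfl
    · rw [Equiv.swap_apply_of_ne_of_ne (by simp) (by simpa using h)]
      show some (finSuccEquiv' a (π' b)) = _
      rcases h2 : finSuccEquiv' a (π' b) with _ | c
      · exfalso
        apply h
        rw [← finSuccEquiv'_at a] at h2
        exact (finSuccEquiv' a).injective h2
      · rfl

theorem pcs : PcsStmt := by
  intro k Λ hΛ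
  refine ⟨pinv_up hΛ, fun m => ?_⟩
  unfold TP
  rw [sum_perm]
  congr 1
  · rw [Finset.sum_comm]
    rw [Finset.sum_comm]
    have h1 : ∀ π' : Equiv.Perm (Fin m),
        ∑ σ : Option (Fin m) → Equiv.Perm (Fin k), Λ (Fin m) (Equiv.optionCongr π') σ =
        ∑ ρ : Equiv.Perm (Fin k), ∑ σ' : Fin m → Equiv.Perm (Fin k),
          Λ (Fin m) (Equiv.optionCongr π') (fun x => x.elim ρ σ') := fun π' => sum_fun _
    rw [Finset.sum_congr rfl (fun π' _ => h1 π')]
    rw [Finset.sum_comm]
  · rcases m with _ | m
    · simp
    · have h2 : ∀ a : Fin (m + 1), ∑ π' : Equiv.Perm (Fin (m + 1)),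
          ∑ σ : Option (Fin (m + 1)) → Equiv.Perm (Fin k),
            Λ (Fin (m + 1)) (Equiv.swap none (some a) * Equiv.optionCongr π') σ =
          k.factorial * ∑ π : Equiv.Perm (Option (Fin m)),
            ∑ σ : Option (Fin m) → Equiv.Perm (Fin k), up Λ (Fin m) π σ := by
        intro a
        rw [Finset.mul_sum]
        refine Fintype.sum_equiv (finSuccEquiv' a).permCongr _ _ (fun π' => ?_)
        rw [← sum_step hΛ]
        refine Fintype.sum_equiv
          (Equiv.arrowCongr (Equiv.optionCongr (finSuccEquiv' a)) (Equiv.refl _)) _ _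
          (fun σ => ?_)
        refine hΛ _ _ (finSuccEquiv' a) (fun _ => 1) _ _ _ _ (conj_eq a π') ?_
        intro x
        rw [one_mul, mul_one]
        show σ x = σ ((Equiv.optionCongr (finSuccEquiv' a)).symm
          (Equiv.optionCongr (finSuccEquiv' a) x))
        rw [Equiv.symm_apply_apply]
      rw [Finset.sum_congr rfl (fun a _ => h2 a), Finset.sum_const, Finset.card_univ,
        Fintype.card_fin, smul_eq_mul, Nat.add_sub_cancel, mul_assoc]

end Pool.Agent.UMG.B.H27
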