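import Pool.Agent.UMG.StmtsA

/-!
Squad UMG (MP_34c13a_lc), row ONE.
-/

set_option autoImplicit false

namespace Pool.Agent.UMG.A.H27

open Finset Pool.Agent.UMG

theorem one : OneStmt := by
  intro R _ _ n
  induction n using Nat.strong_induction_on with
  | _ n ih =>
    cases n with
    | zero => rw [E]
    | succ n =>
      rw [E]
      have h1 : ∑ i ∈ range (n + 1), (1 : R) * E (fun _ => (1 : R)) (n - i)
          = ∑ i ∈ range (n + 1), (1 : R) := by
        apply Finset.sum_congr rfl
        intro i hi
        rw [ih (n - i) (by omega), one_mul]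
      rw [h1, Finset.sum_const, Finset.card_range, nsmul_eq_mul, mul_one]
      have h2 : ((n + 1 : ℕ) : R) = ((n : ℚ) + 1) • (1 : R) := by
        rw [Algebra.smul_def, mul_one, map_add, map_natCast, map_one, Nat.cast_succ]
      rw [h2, smul_smul]
      have h3 : ((1 : ℚ) / ((n : ℚ) + 1)) * ((n : ℚ) + 1) = 1 := by
        have : ((n : ℚ) + 1) ≠ 0 := by positivity
        field_simp
      rw [h3, one_smul]

end Pool.Agent.UMG.A.H27
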